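import Pool.Agent.Q136.LR.Crit

/-!
# The classes of the roots of the multipliers of `Γ(c t + x)`
-/

set_option autoImplicit false
set_option linter.unusedSectionVars false

open Filter Topology Polynomial

namespace Pool.Agent.Q136.LR

open Pool.Agent.Q23.DM

/-- the offsets -/
def dl (c : ℤ) (j : ℕ) : ℤ := if 0 < c then j else -((j : ℤ) + 1)

/-- the points -/
noncomputable def pt (c : ℤ) (x : ℂ) (j : ℕ) : ℂ := (x + dl c j) / c

theorem pt_mul {c : ℤ} (hc : c ≠ 0) (x : ℂ) (j : ℕ) (t : ℂ) : c * t + x + dl c j = c * (t + pt c x j) := by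
  have : (c : ℂ) ≠ 0 := Int.cast_ne_zero.2 hc
  unfold pt
  field_simp
  ring

/-- the coset -/
def Cos (c : ℤ) (x y : ℂ) : Prop := ∃ n : ℤ, (c : ℂ) * y = x + n

theorem emod_unique {c : ℤ} (hc : c ≠ 0) (m : ℤ) :
    ∃! j : ℕ, j < c.natAbs ∧ ∃ n : ℤ, m = dl c j + c * n := by
  rcases lt_or_gt_of_ne hc with h | h
  · -- negative
    refine ⟨((-m - 1) % c).toNat, ⟨?_, ?_⟩, ?_⟩
    · have h1 := Int.emod_nonneg (-m - 1) hc
      have h2 := Int.emod_lt_abs (-m - 1) hc
      rw [Int.abs_eq_natAbs] at h2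
      omega
    · refine ⟨-((-m - 1) / c), ?_⟩
      have h1 := Int.emod_nonneg (-m - 1) hc
      have h3 := Int.emod_add_mul_ediv (-m - 1) c
      unfold dl
      rw [if_neg (by omega), Int.toNat_of_nonneg h1]
      linear_combination h3
    · rintro j ⟨hj, n, hn⟩
      unfold dl at hn
      rw [if_neg (by omega)] at hn
      have h1 : -m - 1 = (j : ℤ) + c * (-n) := by rw [hn]; ring
      have h2 : (-m - 1) % c = j := by
        rw [h1, Int.add_mul_emod_self_left]
        have h4 : (j : ℤ) < |c| := by rw [Int.abs_eq_natAbs]; exact_mod_cast hj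
        rw [← Int.emod_abs]
        exact Int.emod_eq_of_lt (by omega) h4
      rw [h2]
      simp
  · refine ⟨(m % c).toNat, ⟨?_, ?_⟩, ?_⟩
    · have h1 := Int.emod_nonneg m hc
      have h2 := Int.emod_lt_abs m hc
      rw [Int.abs_eq_natAbs] at h2
      omega
    · refine ⟨m / c, ?_⟩
      have h1 := Int.emod_nonneg m hc
      have h3 := Int.emod_add_mul_ediv m c
      unfold dl
      rw [if_pos h, Int.toNat_of_nonneg h1]
      linear_combination -h3
    · rintro j ⟨hj, n, hn⟩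
      unfold dl at hn
      rw [if_pos h] at hn
      have h2 : m % c = j := by
        rw [hn, Int.add_mul_emod_self_left]
        exact Int.emod_eq_of_lt (by omega) (by omega)
      rw [h2]
      simp

theorem pt_iff {c : ℤ} (hc : c ≠ 0) (x y : ℂ) (j : ℕ) :
    (∃ n : ℤ, y = pt c x j + n) ↔ ∃ n : ℤ, (c : ℂ) * y = x + ((dl c j + c * n : ℤ) : ℂ) := by
  have h0 : (c : ℂ) ≠ 0 := Int.cast_ne_zero.2 hc
  constructor
  · rintro ⟨n, hn⟩
    refine ⟨n, ?_⟩
    rw [hn]
    unfold pt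
    push_cast
    field_simp
    ring
  · rintro ⟨n, hn⟩
    refine ⟨n, ?_⟩
    apply mul_left_cancel₀ h0
    rw [hn]
    unfold pt
    push_cast
    field_simp
    ring

open Classical in
theorem cnt {c : ℤ} (hc : c ≠ 0) (x y : ℂ) :
    ((Finset.range c.natAbs).filter fun j => ∃ n : ℤ, y = pt c x j + n).card =
      if Cos c x y then 1 else 0 := by
  by_cases h : Cos c x y
  · rw [if_pos h]
    obtain ⟨m, hm⟩ := h
    obtain ⟨j, ⟨hj, n, hn⟩, hu⟩ := emod_unique hc m
    rw [Finset.card_eq_one]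
    refine ⟨j, ?_⟩
    ext i
    rw [Finset.mem_filter, Finset.mem_range, Finset.mem_singleton, pt_iff hc]
    constructor
    · rintro ⟨hi, n', hn'⟩
      apply hu
      refine ⟨hi, n', ?_⟩
      have : ((m : ℤ) : ℂ) = ((dl c i + c * n' : ℤ) : ℂ) := add_left_cancel (hm.symm.trans hn')
      exact_mod_cast this
    · rintro rfl
      exact ⟨hj, n, by rw [hm, hn]⟩
  · rw [if_neg h, Finset.card_eq_zero, Finset.filter_eq_empty_iff]
    intro j _ hj
    rw [pt_iff hc] at hj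
    obtain ⟨n, hn⟩ := hj
    exact h ⟨_, hn⟩

/-- the product of the factors -/
noncomputable def QQ (c : ℤ) (x : ℂ) : ℂ[X] := ∏ j ∈ Finset.range c.natAbs, (C (c : ℂ) * (X + C (pt c x j)))

theorem fac_ne {c : ℤ} (hc : c ≠ 0) (x : ℂ) (j : ℕ) : (C (c : ℂ) * (X + C (pt c x j)) : ℂ[X]) ≠ 0 :=
  mul_ne_zero (C_ne_zero.2 (Int.cast_ne_zero.2 hc)) (X_add_C_ne_zero _)

theorem QQ_ne {c : ℤ} (hc : c ≠ 0) (x : ℂ) : QQ c x ≠ 0 := Finset.prod_ne_zero_iff.2 fun j _ => fac_ne hc x j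

open Classical in
theorem nr_QQ {c : ℤ} (hc : c ≠ 0) (x y : ℂ) : nr y (QQ c x) = if Cos c x y then 1 else 0 := by
  rw [← cnt hc x y]
  unfold QQ
  rw [nr_prod _ _ _ fun j => fac_ne hc x j, Finset.card_filter]
  refine Finset.sum_congr rfl fun j _ => ?_
  rw [nr_mul y (C_ne_zero.2 (Int.cast_ne_zero.2 hc)) (X_add_C_ne_zero _), nr_C, nr_X, zero_add]

theorem QQ_eval {c : ℤ} (hc : c ≠ 0) (x t : ℂ) :
    (QQ c x).eval t = ∏ j ∈ Finset.range c.natAbs, (c * t + x + dl c j) := by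
  unfold QQ
  rw [eval_prod]
  refine Finset.prod_congr rfl fun j _ => ?_
  rw [pt_mul hc]
  simp

/-- the multipliers of the gamma functions and exponentials -/
noncomputable def bb {r u : ℕ} (c : Fin r → ℤ) (x : Fin r → ℂ) (lam : Fin u → ℂ) : Fin r ⊕ Fin u → ℂ[X] :=
  Sum.elim (fun i => if 0 < c i then QQ (c i) (x i) else 1) (fun l => C (lam l))

/-- the denominators of the multipliers -/
noncomputable def bd {r u : ℕ} (c : Fin r → ℤ) (x : Fin r → ℂ) : Fin r ⊕ Fin u → ℂ[X] :=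
  Sum.elim (fun i => if 0 < c i then 1 else QQ (c i) (x i)) (fun _ => 1)

section

variable {r u : ℕ} (c : Fin r → ℤ) (hc : ∀ i, c i ≠ 0) (x : Fin r → ℂ) (lam : Fin u → ℂ)

include hc

theorem bb_ne (hl : ∀ l, lam l ≠ 0) (j : Fin r ⊕ Fin u) : bb c x lam j ≠ 0 := by
  rcases j with i | l
  · show (if 0 < c i then QQ (c i) (x i) else 1 : ℂ[X]) ≠ 0
    split_ifs
    · exact QQ_ne (hc i) _
    · exact one_ne_zero
  · exact C_ne_zero.2 (hl l)

theorem bd_ne (j : Fin r ⊕ Fin u) : bd (u := u) c x j ≠ 0 := by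
  rcases j with i | l
  · show (if 0 < c i then 1 else QQ (c i) (x i) : ℂ[X]) ≠ 0
    split_ifs
    · exact one_ne_zero
    · exact QQ_ne (hc i) _
  · exact one_ne_zero

theorem pr_fin (b : Fin r ⊕ Fin u → ℂ[X]) (e : (Fin r ⊕ Fin u) →₀ ℕ) : pr b e = ∏ j, b j ^ e j := by
  unfold pr
  rw [Finsupp.prod_fintype _ _ (fun _ => pow_zero _)]

open Classical in
theorem nr_bb (hl : ∀ l, lam l ≠ 0) (e : (Fin r ⊕ Fin u) →₀ ℕ) (y : ℂ) :
    nr y (pr (bb c x lam) e) = ∑ i, if 0 < c i then e (Sum.inl i) * (if Cos (c i) (x i) y then 1 else 0) else 0 := by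
  rw [pr_fin c hc, nr_prod _ _ _ fun i => pow_ne_zero _ (bb_ne c hc x lam hl i)]
  simp only [nr_pow _ (bb_ne c hc x lam hl _)]
  rw [Fintype.sum_sum_type]
  have h1 : ∀ l : Fin u, nr y (bb c x lam (Sum.inr l)) = 0 := fun l => nr_C _ _
  simp only [h1, mul_zero, Finset.sum_const_zero, add_zero]
  refine Finset.sum_congr rfl fun i _ => ?_
  have h2 : bb c x lam (Sum.inl i) = if 0 < c i then QQ (c i) (x i) else 1 := rfl
  rw [h2]
  split_ifs with h3
  · rw [nr_QQ (hc i)]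
    simp_all
  · rw [nr_QQ (hc i)]
    simp_all
  · have := nr_C y 1
    rw [map_one] at this
    rw [this, mul_zero]

open Classical in
theorem nr_bd (e : (Fin r ⊕ Fin u) →₀ ℕ) (y : ℂ) :
    nr y (pr (bd (u := u) c x) e) = ∑ i, if 0 < c i then 0 else e (Sum.inl i) * (if Cos (c i) (x i) y then 1 else 0) := by
  have h0 : nr y (1 : ℂ[X]) = 0 := by
    have := nr_C y 1
    rwa [map_one] at this
  rw [pr_fin c hc, nr_prod _ _ _ fun i => pow_ne_zero _ (bd_ne c hc x i)]
  simp only [nr_pow _ (bd_ne c hc x _)]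
  rw [Fintype.sum_sum_type]
  have h1 : ∀ l : Fin u, nr y (bd (u := u) c x (Sum.inr l)) = 0 := fun l => h0
  simp only [h1, mul_zero, Finset.sum_const_zero, add_zero]
  refine Finset.sum_congr rfl fun i _ => ?_
  have h2 : bd (u := u) c x (Sum.inl i) = if 0 < c i then 1 else QQ (c i) (x i) := rfl
  rw [h2]
  split_ifs with h3
  · rw [h0, mul_zero]
  · rw [nr_QQ (hc i)]
    simp_all
  · rw [nr_QQ (hc i)]
    simp_all

end

open Classical in
/-- the criterion for the multipliers -/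
theorem hM_of {r u : ℕ} (c : Fin r → ℤ) (hc : ∀ i, c i ≠ 0) (x : Fin r → ℂ) (lam : Fin u → ℂ)
    (hl : ∀ l, lam l ≠ 0) (hl' : ∀ e e' : Fin u → ℕ, ∏ l, lam l ^ e l = ∏ l, lam l ^ e' l → e = e')
    (hind : ∀ m : Fin r → ℂ, (∀ y : ℂ, ∑ i, m i * (if Cos (c i) (x i) y then 1 else 0) = 0) → m = 0)
    (e e' : (Fin r ⊕ Fin u) →₀ ℕ) (A B : ℂ[X]) (hA : A ≠ 0) (hB : B ≠ 0)
    (h : pr (bb c x lam) e * pr (bd c x) e' * (A.comp (X + 1) * B) =
      pr (bb c x lam) e' * pr (bd c x) e * (A * B.comp (X + 1))) : e = e' := by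
  have hne : ∀ e, pr (bb c x lam) e ≠ 0 := fun e => pr_poly_ne (bb_ne c hc x lam hl) e
  have hne' : ∀ e, pr (bd (u := u) c x) e ≠ 0 := fun e => pr_poly_ne (bd_ne c hc x) e
  have h1 : ∀ i, e (Sum.inl i) = e' (Sum.inl i) := by
    have h3 := hind (fun i => (if 0 < c i then 1 else -1) * ((e (Sum.inl i) : ℂ) - (e' (Sum.inl i) : ℂ))) (by
      intro y
      have h2 := congrArg (nr y) h
      rw [nr_mul _ (mul_ne_zero (hne e) (hne' e')) (mul_ne_zero (shift_ne hA) hB), nr_mul _ (hne e) (hne' e'),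
        nr_mul _ (mul_ne_zero (hne e') (hne' e)) (mul_ne_zero hA (shift_ne hB)), nr_mul _ (hne e') (hne' e),
        nr_mul _ (shift_ne hA) hB, nr_mul _ hA (shift_ne hB), nr_shift, nr_shift] at h2
      have h4 : nr y (pr (bb c x lam) e) + nr y (pr (bd (u := u) c x) e') =
          nr y (pr (bb c x lam) e') + nr y (pr (bd (u := u) c x) e) := by omega
      rw [nr_bb c hc x lam hl, nr_bb c hc x lam hl, nr_bd c hc x, nr_bd c hc x] at h4
      have h5 := congrArg (Nat.cast : ℕ → ℂ) h4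
      push_cast at h5
      rw [← sub_eq_zero, ← Finset.sum_add_distrib, ← Finset.sum_add_distrib, ← Finset.sum_sub_distrib] at h5
      refine Eq.trans (Finset.sum_congr rfl fun i _ => ?_) h5
      split_ifs <;> ring)
    intro i
    have h4 := congrFun h3 i
    simp only [Pi.zero_apply] at h4
    have h5 : ((e (Sum.inl i) : ℂ) - (e' (Sum.inl i) : ℂ)) = 0 := by
      rcases mul_eq_zero.1 h4 with h6 | h6
      · split_ifs at h6 <;> norm_num at h6
      · exact h6
    exact_mod_cast sub_eq_zero.1 h5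
  -- cancel the gamma parts
  have hprb : ∀ e : (Fin r ⊕ Fin u) →₀ ℕ, pr (bb c x lam) e =
      (∏ i, (if 0 < c i then QQ (c i) (x i) else 1) ^ e (Sum.inl i)) * C (∏ l, lam l ^ e (Sum.inr l)) := by
    intro e
    rw [pr_fin c hc, Fintype.prod_sum_type, map_prod]
    simp only [map_pow]
    rfl
  have hprd : ∀ e : (Fin r ⊕ Fin u) →₀ ℕ, pr (bd (u := u) c x) e =
      (∏ i, (if 0 < c i then 1 else QQ (c i) (x i)) ^ e (Sum.inl i)) := by
    intro e
    rw [pr_fin c hc, Fintype.prod_sum_type]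
    have : ∀ l : Fin u, bd (u := u) c x (Sum.inr l) = 1 := fun _ => rfl
    simp only [this, one_pow, Finset.prod_const_one, mul_one]
    rfl
  have hdeg : ∀ R : ℂ[X], (R.comp (X + 1)).leadingCoeff = R.leadingCoeff := by
    intro R
    have : (X + 1 : ℂ[X]).natDegree = 1 := natDegree_X_add_C 1
    rw [leadingCoeff_comp (by rw [this]; exact one_ne_zero)]
    have h2 : (X + 1 : ℂ[X]).leadingCoeff = 1 := leadingCoeff_X_add_C 1
    rw [h2, one_pow, mul_one]
  set G := ∏ i, (if 0 < c i then QQ (c i) (x i) else (1 : ℂ[X])) ^ e (Sum.inl i) with hG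
  set G' := ∏ i, (if 0 < c i then (1 : ℂ[X]) else QQ (c i) (x i)) ^ e (Sum.inl i) with hG'
  have hbe : pr (bb c x lam) e = G * C (∏ l, lam l ^ e (Sum.inr l)) := hprb e
  have hbe' : pr (bb c x lam) e' = G * C (∏ l, lam l ^ e' (Sum.inr l)) := by
    rw [hprb e', hG]
    simp only [h1]
  have hde : pr (bd (u := u) c x) e = G' := hprd e
  have hde' : pr (bd (u := u) c x) e' = G' := by
    rw [hprd e', hG']
    simp only [h1]
  have hGne : G ≠ 0 := fun h0 => hne e (by rw [hbe, h0, zero_mul])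
  have hG'ne : G' ≠ 0 := fun h0 => hne' e (by rw [hde, h0])
  rw [hbe, hbe', hde, hde'] at h
  have h2 : C (∏ l, lam l ^ e (Sum.inr l)) * (A.comp (X + 1) * B) =
      C (∏ l, lam l ^ e' (Sum.inr l)) * (A * B.comp (X + 1)) := by
    apply mul_left_cancel₀ (mul_ne_zero hGne hG'ne)
    linear_combination h
  have h3 := congrArg leadingCoeff h2
  rw [leadingCoeff_mul, leadingCoeff_mul, leadingCoeff_mul, leadingCoeff_mul, hdeg, hdeg, leadingCoeff_C,
    leadingCoeff_C] at h3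
  have h4 : (∏ l, lam l ^ e (Sum.inr l)) = ∏ l, lam l ^ e' (Sum.inr l) :=
    mul_right_cancel₀ (mul_ne_zero (leadingCoeff_ne_zero.2 hA) (leadingCoeff_ne_zero.2 hB)) h3
  have h5 := hl' (fun l => e (Sum.inr l)) (fun l => e' (Sum.inr l)) h4
  ext j
  rcases j with j | l
  · exact h1 j
  · exact congrFun h5 l

end Pool.Agent.Q136.LR
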