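import Pool.Agent.Q23.DM.FracC

/-!
# Independence of solutions of difference equations of order one with rational coefficients

The theorem `Pool.Agent.Q23.DM.mixInd` for functions on a real half line and rational (instead of
polynomial) multipliers.
-/

set_option autoImplicit false

open Filter Topology Polynomial

namespace Pool.Agent.Q136.LR

open Pool.Agent.Q23.DM

theorem pr_div {κ R : Type} [Field R] (f g : κ → R) (e : κ →₀ ℕ) :
    pr (fun j => f j / g j) e = pr f e / pr g e := by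
  unfold pr Finsupp.prod
  rw [← Finset.prod_div_distrib]
  exact Finset.prod_congr rfl fun i _ => div_pow _ _ _

theorem pr_poly_ne {μ : Type} {b : μ → ℂ[X]} (hb : ∀ j, b j ≠ 0) (e : μ →₀ ℕ) : pr b e ≠ 0 :=
  Finset.prod_ne_zero_iff.2 fun i _ => pow_ne_zero _ (hb i)

/-- **Independence over `ℂ(t)`** of solutions of `u(t+1) = u(t) + α(t)` and
`b'(t) v(t+1) = b(t) v(t)`. -/
theorem concreteR {κ μ : Type} [Fintype κ] [DecidableEq κ] [Fintype μ] [DecidableEq μ]
    (u : κ → ℝ → ℂ) (α : κ → ℂ → ℂ) (hα : ∀ i, IsRat (α i))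
    (hu : ∀ i, ∀ᶠ t : ℝ in atTop, u i (t + 1) = u i t + α i (t : ℂ))
    (v : μ → ℝ → ℂ) (b b' : μ → ℂ[X]) (hb : ∀ j, b j ≠ 0) (hb' : ∀ j, b' j ≠ 0)
    (hv : ∀ j, ∀ᶠ t : ℝ in atTop, (b' j).eval (t : ℂ) * v j (t + 1) = (b j).eval (t : ℂ) * v j t)
    (hv0 : ∀ j, ∀ᶠ t : ℝ in atTop, v j t ≠ 0)
    (hA : ∀ (c : κ → ℂ) (h : ℂ → ℂ), IsRat h →
      (∀ᶠ t : ℝ in atTop, ∑ i, c i * α i (t : ℂ) = h (t : ℂ) - h ((t : ℂ) + 1)) → c = 0)
    (hM : ∀ (e e' : μ →₀ ℕ) (A B : ℂ[X]), A ≠ 0 → B ≠ 0 →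
      pr b e * pr b' e' * (A.comp (X + 1) * B) = pr b e' * pr b' e * (A * B.comp (X + 1)) → e = e')
    (P : MvPolynomial (Option (κ ⊕ μ)) ℂ)
    (hP : ∀ᶠ t : ℝ in atTop, MvPolynomial.eval
      (fun o : Option (κ ⊕ μ) => o.elim (t : ℂ) fun z => Sum.elim u v z t) P = 0) :
    P = 0 := by
  classical
  refine poly_of_algInd (Sum.elim u v) ?_ P hP
  have h0 : (fun z => ((Sum.elim u v z : ℝ → ℂ) : GC)) =
      Sum.elim (fun i => ((u i : ℝ → ℂ) : GC)) (fun j => ((v j : ℝ → ℂ) : GC)) := by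
    funext z
    rcases z with i | j <;> rfl
  rw [h0]
  have hcc : ∀ c : ℂ, algebraMap KC GC (algebraMap ℂ[X] KC (C c)) =
      (((fun _ : ℝ => c) : ℝ → ℂ) : GC) := by
    intro c
    have : algebraMap KC GC (algebraMap ℂ[X] KC (C c)) = phi (C c) := iota_poly _
    rw [this]
    show (((fun t : ℝ => (C c).eval (t : ℂ)) : ℝ → ℂ) : GC) = _
    congr 1
    funext t
    simp
  choose N D hD hND using hα
  have hαe : ∀ i, ∀ᶠ t : ℝ in atTop, α i (t : ℂ) = (N i).eval (t : ℂ) / (D i).eval (t : ℂ) := by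
    intro i
    filter_upwards [poly_ne (hD i)] with t ht
    rw [← hND i _ ht]
    field_simp
  refine mixInd sig Sh Sh_iota _ (fun _ => 1)
    (fun i => algebraMap ℂ[X] KC (N i) / algebraMap ℂ[X] KC (D i)) (fun _ => one_ne_zero) ?_ _
    (fun j => algebraMap ℂ[X] KC (b j) / algebraMap ℂ[X] KC (b' j)) ?_ ?_ ?_ ?_ ?_
  · intro i
    have h1 : algebraMap KC GC (algebraMap ℂ[X] KC (N i) / algebraMap ℂ[X] KC (D i)) =
      (((fun t : ℝ => (N i).eval (t : ℂ) / (D i).eval (t : ℂ)) : ℝ → ℂ) : GC) := iota_div _ _ (hD i)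
    rw [h1, map_one, one_mul, Sh_coe, ← Germ.coe_add]
    refine Germ.coe_eq.2 ?_
    filter_upwards [hu i, hαe i] with t h1 h2
    rw [h1, h2]
    rfl
  · intro j
    exact div_ne_zero (alg_ne (hb j)) (alg_ne (hb' j))
  · intro j
    have h1 : algebraMap KC GC (algebraMap ℂ[X] KC (b j) / algebraMap ℂ[X] KC (b' j)) =
      (((fun t : ℝ => (b j).eval (t : ℂ) / (b' j).eval (t : ℂ)) : ℝ → ℂ) : GC) := iota_div _ _ (hb' j)
    rw [h1, Sh_coe, ← Germ.coe_mul]
    refine Germ.coe_eq.2 ?_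
    filter_upwards [hv j, poly_ne (hb' j)] with t h1 h2
    simp only [Pi.mul_apply]
    field_simp
    linear_combination h1
  · intro j
    refine IsUnit.of_mul_eq_one (((fun t : ℝ => (v j t)⁻¹) : ℝ → ℂ) : GC) ?_
    rw [← Germ.coe_mul, ← Germ.coe_one]
    refine Germ.coe_eq.2 ?_
    filter_upwards [hv0 j] with t ht
    simp [ht]
  · intro i0 c g hc0 hc hg
    have hcr : ∀ i, ∃ r : ℂ, c i = algebraMap ℂ[X] KC (C r) := by
      intro i
      by_cases hci : c i = 0
      · exact ⟨0, by rw [hci]; simp⟩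
      have h1 : sig (c i) = algebraMap ℂ[X] KC (C 1) * c i := by
        have h2 := hc i
        rw [one_mul, one_mul] at h2
        rw [h2]
        simp
      obtain ⟨-, r, hr⟩ := sig_semi hci h1
      exact ⟨r, hr⟩
    choose r hr using hcr
    obtain ⟨A, B, hB, rfl⟩ := IsFractionRing.div_surjective (A := ℂ[X]) g
    have hB0 : B ≠ 0 := nonZeroDivisors.ne_zero hB
    have h1 := congrArg (algebraMap KC GC) hg
    rw [one_mul, map_sub, ← Sh_iota, map_sum] at h1
    have h2 : (algebraMap KC GC (algebraMap ℂ[X] KC A / algebraMap ℂ[X] KC B)) =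
      (((fun t : ℝ => A.eval (t : ℂ) / B.eval (t : ℂ)) : ℝ → ℂ) : GC) := iota_div A B hB0
    have h3 : ∀ i, algebraMap KC GC (algebraMap ℂ[X] KC (N i) / algebraMap ℂ[X] KC (D i) * sig (c i)) =
        (((fun t : ℝ => r i * ((N i).eval (t : ℂ) / (D i).eval (t : ℂ))) : ℝ → ℂ) : GC) := by
      intro i
      have h4 : algebraMap KC GC (algebraMap ℂ[X] KC (N i) / algebraMap ℂ[X] KC (D i)) =
        (((fun t : ℝ => (N i).eval (t : ℂ) / (D i).eval (t : ℂ)) : ℝ → ℂ) : GC) := iota_div _ _ (hD i)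
      have h5 : sig (c i) = algebraMap ℂ[X] KC (C (r i)) := by
        rw [hr i, sig_poly]
        simp
      rw [map_mul, h4, h5, hcc, mul_comm, ← Germ.coe_mul]
      rfl
    rw [h2, Sh_coe] at h1
    simp only [h3] at h1
    have h6 : ∑ i, (((fun t : ℝ => r i * ((N i).eval (t : ℂ) / (D i).eval (t : ℂ))) : ℝ → ℂ) : GC) =
        (((fun t : ℝ => ∑ i, r i * ((N i).eval (t : ℂ) / (D i).eval (t : ℂ))) : ℝ → ℂ) : GC) := by
      have : ∀ s : Finset κ, ∑ i ∈ s, (((fun t : ℝ => r i * ((N i).eval (t : ℂ) / (D i).eval (t : ℂ))) : ℝ → ℂ) : GC) =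
        (((fun t : ℝ => ∑ i ∈ s, r i * ((N i).eval (t : ℂ) / (D i).eval (t : ℂ))) : ℝ → ℂ) : GC) := by
        intro s
        induction s using Finset.induction_on with
        | empty => simp; rfl
        | insert j s hj ih =>
          rw [Finset.sum_insert hj, ih, ← Germ.coe_add]
          congr 1
          funext t
          rw [Finset.sum_insert hj]
          rfl
      exact this _
    rw [h6, ← Germ.coe_sub] at h1
    have hall : ∀ᶠ t : ℝ in atTop, ∀ i, α i (t : ℂ) = (N i).eval (t : ℂ) / (D i).eval (t : ℂ) :=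
      eventually_all.2 hαe
    have h7 := hA r (fun t => A.eval t / B.eval t) (IsRat.div A B hB0) (by
      filter_upwards [Germ.coe_eq.1 h1, hall] with t ht hal
      simp only [Pi.sub_apply] at ht
      simp only [hal]
      rw [ht]
      push_cast
      rfl)
    apply hc0
    rw [hr i0, h7]
    simp
  · intro e e' c hc hcc'
    obtain ⟨A, B, hB, rfl⟩ := IsFractionRing.div_surjective (A := ℂ[X]) c
    have hB0 : B ≠ 0 := nonZeroDivisors.ne_zero hB
    have hA0 : A ≠ 0 := by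
      rintro rfl
      apply hc
      simp
    have hsh : ∀ {R : ℂ[X]}, R ≠ 0 → R.comp (X + 1) ≠ 0 := fun {R} hR h =>
      hR (shift_inj (by show R.comp (X + 1) = _; rw [h, map_zero]))
    have n1 := alg_ne (pr_poly_ne hb' e)
    have n2 := alg_ne (pr_poly_ne hb' e')
    have n3 := alg_ne hB0
    have n4 := alg_ne (hsh hB0)
    rw [pr_div, pr_div, pr_poly, pr_poly, pr_poly, pr_poly, map_div₀, sig_poly, sig_poly] at hcc'
    have h1 : algebraMap ℂ[X] KC (pr b e * pr b' e' * (A.comp (X + 1) * B)) =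
        algebraMap ℂ[X] KC (pr b e' * pr b' e * (A * B.comp (X + 1))) := by
      rw [div_mul_div_comm, div_mul_div_comm, div_eq_div_iff (mul_ne_zero n1 n4) (mul_ne_zero n2 n3)] at hcc'
      simp only [map_mul]
      linear_combination hcc'
    exact hM e e' A B hA0 hB0 (alg_inj h1)

end Pool.Agent.Q136.LR
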