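import Pool.Agent.Q136.LR.Loc
import Pool.Agent.Q29.RatMain

/-!
# Values at rational points of an arbitrary interval
-/

set_option autoImplicit false

open Filter Topology Set NumberField

namespace Pool.Agent.Q136.LR

/-- translation of the variable -/
noncomputable def tr {κ : Type} (M : ℂ) : Option κ → MvPolynomial (Option κ) ℂ
  | none => MvPolynomial.X none + MvPolynomial.C M
  | some y => MvPolynomial.X (some y)

theorem locInd_trans {κ : Type} (f : κ → ℂ → ℂ) (M t0 : ℂ) (h : Y124.LocInd f t0) :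
    Y124.LocInd (fun y z => f y (z - M)) (t0 + M) := by
  intro P hP
  have h1 : (MvPolynomial.aeval (tr (κ := κ) (-M))).comp (MvPolynomial.aeval (tr M)) = AlgHom.id ℂ _ := by
    refine MvPolynomial.algHom_ext fun o => ?_
    rw [AlgHom.comp_apply, MvPolynomial.aeval_X, AlgHom.id_apply]
    rcases o with _ | y
    · simp only [tr, map_add, MvPolynomial.algHom_C, MvPolynomial.aeval_X, MvPolynomial.algebraMap_eq]
      rw [map_neg]
      ring
    · simp only [tr, MvPolynomial.aeval_X]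
  have h2 : MvPolynomial.aeval (tr M) P = 0 := by
    refine h _ ?_
    have h3 : Tendsto (fun t : ℂ => t + M) (𝓝 t0) (𝓝 (t0 + M)) := (continuous_add_const M).tendsto t0
    filter_upwards [h3.eventually hP] with t ht
    have h4 : ∀ v : Option κ → ℂ, MvPolynomial.eval v (MvPolynomial.aeval (tr M) P) =
        MvPolynomial.eval (fun o => MvPolynomial.eval v (tr M o)) P := by
      intro v
      have h1 : (MvPolynomial.eval v).comp (MvPolynomial.aeval (tr M) :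
          MvPolynomial (Option κ) ℂ →ₐ[ℂ] _).toRingHom =
          MvPolynomial.eval (fun o => MvPolynomial.eval v (tr M o)) := by
        refine MvPolynomial.ringHom_ext ?_ ?_
        · intro a
          simp
        · intro o
          simp
      exact RingHom.congr_fun h1 P
    rw [h4, ← ht]
    congr 2
    funext o
    rcases o with _ | y
    · simp [tr]
    · simp [tr]
  have h5 := congrArg (fun g => g P) h1
  simp only [AlgHom.comp_apply, AlgHom.id_apply, h2, map_zero] at h5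
  exact h5.symm

/-- `rat_main` for an arbitrary interval -/
theorem rat_any {κ : Type} [Fintype κ] (k n g d : ℕ) (f : κ → ℂ → ℂ) (a b : ℝ)
    (han : ∀ i, ∀ t ∈ (fun x : ℝ => (x : ℂ)) '' Icc a b, AnalyticAt ℂ (f i) t)
    (hind : ∀ t ∈ (fun x : ℝ => (x : ℂ)) '' Icc a b, Y124.LocInd f t) (A ε : ℝ) (hε : 0 < ε) :
    ∃ R C T₀ : ℝ, 0 ≤ C ∧ ∀ (F : Type) [Field F] [NumberField F], Module.finrank ℚ F ≤ k →
      ∀ (ι : F →+* ℂ) (ξ : Fin g → ℂ) (T : ℝ), T₀ ≤ T → ∀ X : Finset ℚ,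
        (∀ x ∈ X, a ≤ (x : ℝ) ∧ (x : ℝ) ≤ b ∧ (x.den : ℝ) ≤ T) →
        (({q : Fin n → ℚ | (∀ j, q j ∈ X) ∧ ∃ P : MvPolynomial (Fin n × κ) ℂ, (∀ x, P.degreeOf x ≤ d) ∧
          (∀ s, ∃ c : Fin g → 𝓞 F, (∀ i (φ : F →+* ℂ), ‖φ (c i)‖ ≤ T ^ A) ∧ P.coeff s = ∑ i, ξ i * ι (c i)) ∧
          ∃ s₀, P.coeff s₀ ≠ 0 ∧ ‖MvPolynomial.aeval (fun x : Fin n × κ => f x.2 (((q x.1 : ℚ) : ℝ) : ℂ)) P‖ ≤
            T ^ (-R) * ‖P.coeff s₀‖}.ncard : ℕ) : ℝ) ≤ C * T ^ ε * (X.card : ℝ) ^ (n - 1) := by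
  classical
  obtain ⟨M, hM⟩ := exists_nat_gt (-a)
  obtain ⟨R, C, T₀, hC, H⟩ := Pool.Agent.Q29.RM.rat_main k n g d (fun y z => f y (z - M)) (a + M) (b + M)
    (by linarith) (by
      rintro i _ ⟨t, ht, rfl⟩
      have h1 : ((t - M : ℝ) : ℂ) ∈ (fun x : ℝ => (x : ℂ)) '' Icc a b :=
        ⟨t - M, ⟨by linarith [ht.1], by linarith [ht.2]⟩, rfl⟩
      have h2 := han i _ h1
      have h3 : AnalyticAt ℂ (fun z : ℂ => z - M) ((t : ℝ) : ℂ) := analyticAt_id.sub analyticAt_const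
      have h4 : ((t - M : ℝ) : ℂ) = (fun z : ℂ => z - M) ((t : ℝ) : ℂ) := by push_cast; rfl
      rw [h4] at h2
      exact AnalyticAt.comp (g := f i) (f := fun z : ℂ => z - M) h2 h3) (by
      rintro _ ⟨t, ht, rfl⟩
      have h1 : ((t - M : ℝ) : ℂ) ∈ (fun x : ℝ => (x : ℂ)) '' Icc a b :=
        ⟨t - M, ⟨by linarith [ht.1], by linarith [ht.2]⟩, rfl⟩
      have h2 := locInd_trans f (M : ℂ) _ (hind _ h1)
      have h4 : ((t - M : ℝ) : ℂ) + (M : ℂ) = (t : ℂ) := by push_cast; ring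
      rw [h4] at h2
      exact h2) A ε hε
  refine ⟨R, C, T₀, hC, fun F _ _ hF ι ξ T hT X hX => ?_⟩
  have h := H F hF ι ξ T hT (X.image fun x => x + (M : ℚ)) (by
    intro y hy
    rw [Finset.mem_image] at hy
    obtain ⟨x, hx, rfl⟩ := hy
    obtain ⟨h1, h2, h3⟩ := hX x hx
    refine ⟨?_, ?_, ?_⟩
    · push_cast
      linarith
    · push_cast
      linarith
    · have : (x + (M : ℚ)).den = x.den := Rat.add_natCast_den x M
      rw [this]
      exact h3)
  rw [Finset.card_image_of_injective _ (add_left_injective _)] at h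
  refine le_trans ?_ h
  have hinj : Function.Injective (fun (q : Fin n → ℚ) j => q j + (M : ℚ)) := by
    intro q q' hq
    funext j
    exact add_right_cancel (congrFun hq j)
  rw [← Set.ncard_image_of_injective _ hinj]
  have hfin : {q : Fin n → ℚ | (∀ j, q j ∈ X.image fun x => x + (M : ℚ)) ∧
      ∃ P : MvPolynomial (Fin n × κ) ℂ, (∀ x, P.degreeOf x ≤ d) ∧
      (∀ s, ∃ c : Fin g → 𝓞 F, (∀ i (φ : F →+* ℂ), ‖φ (c i)‖ ≤ T ^ A) ∧ P.coeff s = ∑ i, ξ i * ι (c i)) ∧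
      ∃ s₀, P.coeff s₀ ≠ 0 ∧ ‖MvPolynomial.aeval
        (fun x : Fin n × κ => f x.2 ((((q x.1 : ℚ) : ℝ) : ℂ) - M)) P‖ ≤ T ^ (-R) * ‖P.coeff s₀‖}.Finite := by
    refine (Finset.finite_toSet (Fintype.piFinset fun _ : Fin n => X.image fun x => x + (M : ℚ))).subset ?_
    rintro q ⟨hq, -⟩
    rw [Finset.mem_coe, Fintype.mem_piFinset]
    exact hq
  refine Nat.cast_le.2 (Set.ncard_le_ncard ?_ hfin)
  rintro _ ⟨q, ⟨hq, P, h1, h2, s₀, h3, h4⟩, rfl⟩
  refine ⟨fun j => Finset.mem_image_of_mem _ (hq j), P, h1, h2, s₀, h3, ?_⟩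
  convert h4 using 5
  push_cast
  ring_nf

end Pool.Agent.Q136.LR
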