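import Pool.Agent.Q136.LR.Cnt

/-!
# Partial fractions at points of several cosets
-/

set_option autoImplicit false

open Filter Topology Polynomial

namespace Pool.Agent.Q136.LR

open Pool.Agent.Q23.DM

theorem isRat_shift {F : ℂ → ℂ} (hF : IsRat F) (w : ℂ) : IsRat (fun t => F (t + w)) := by
  obtain ⟨N, D, hD, h⟩ := hF
  refine ⟨N.comp (X + C w), D.comp (X + C w), ?_, ?_⟩
  · intro h0
    apply hD
    have h2 : (D.comp (X + C w)).comp (X - C w) = D := by
      rw [comp_assoc]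
      simp
    rw [h0, zero_comp] at h2
    exact h2.symm
  · intro t ht
    simp only [eval_comp, eval_add, eval_X, eval_C] at ht ⊢
    exact h _ ht

theorem tele {g : ℂ → ℂ} (hg : IsRat g) (n : ℤ) :
    ∃ h : ℂ → ℂ, IsRat h ∧ ∀ t, g (t + n) = g t + (h t - h (t + 1)) := by
  induction n using Int.induction_on with
  | zero => exact ⟨fun _ => 0, IsRat.zero, fun t => by simp⟩
  | succ n ih =>
    obtain ⟨h, hh, H⟩ := ih
    refine ⟨fun t => h t - g (t + (n : ℂ)), hh.sub (isRat_shift hg _), fun t => ?_⟩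
    have h1 := H t
    push_cast at h1 ⊢
    have e1 : t + ((n : ℂ) + 1) = t + 1 + n := by ring
    rw [e1]
    linear_combination h1
  | pred n ih =>
    obtain ⟨h, hh, H⟩ := ih
    refine ⟨fun t => h t + g (t + (-(n : ℂ) - 1)), hh.add (isRat_shift hg _), fun t => ?_⟩
    have h1 := H t
    push_cast at h1 ⊢
    have e1 : t + 1 + (-(n : ℂ) - 1) = t + -(n : ℂ) := by ring
    rw [e1]
    linear_combination h1

/-- congruence modulo `ℤ` -/
def cls : Setoid ℂ where
  r a b := ∃ n : ℤ, a = b + n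
  iseqv := ⟨fun a => ⟨0, by simp⟩, fun ⟨n, hn⟩ => ⟨-n, by rw [hn]; push_cast; ring⟩,
    fun ⟨n, hn⟩ ⟨m, hm⟩ => ⟨n + m, by rw [hn, hm]; push_cast; ring⟩⟩

/-- representatives -/
noncomputable def rho (y : ℂ) : ℂ := (Quotient.mk cls y).out

theorem rho_rel (y : ℂ) : ∃ n : ℤ, y = rho y + n := by
  have h : Quotient.mk cls (rho y) = Quotient.mk cls y := Quotient.out_eq _
  exact cls.symm (Quotient.exact h)

theorem rho_eq {y y' : ℂ} : rho y = rho y' ↔ ∃ n : ℤ, y = y' + n := by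
  constructor
  · intro h
    obtain ⟨n, hn⟩ := rho_rel y
    obtain ⟨m, hm⟩ := rho_rel y'
    exact ⟨n - m, by
      have : y - n = y' - m := by rw [sub_eq_iff_eq_add.2 hn, h, ← sub_eq_iff_eq_add.2 hm]
      push_cast
      linear_combination this⟩
  · intro h
    unfold rho
    have : Quotient.mk cls y = Quotient.mk cls y' := Quotient.sound h
    rw [this]

theorem rho_rho (y : ℂ) : rho (rho y) = rho y := by
  obtain ⟨n, hn⟩ := rho_rel y
  exact (rho_eq.2 ⟨n, hn⟩).symm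

open Classical in
/-- the criterion for the logarithmic derivatives -/
theorem hA_of {r s : ℕ} (c : Fin r → ℤ) (hc : ∀ i, c i ≠ 0) (x : Fin r → ℂ)
    (hind : ∀ m : Fin r → ℂ, (∀ y : ℂ, ∑ i, m i * (if Cos (c i) (x i) y then 1 else 0) = 0) → m = 0)
    (κ : Fin r × Fin s → ℂ) (hκ : ∀ p, κ p ≠ 0) (a : Fin r × Fin s → ℂ) (h : ℂ → ℂ) (hh : IsRat h)
    (H : ∀ᶠ t : ℝ in atTop, ∑ p, a p * (∑ j ∈ Finset.range (c p.1).natAbs,
      κ p / ((t : ℂ) + pt (c p.1) (x p.1) j) ^ ((p.2 : ℕ) + 1)) = h (t : ℂ) - h ((t : ℂ) + 1)) : a = 0 := by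
  set w : Fin r → ℕ → ℂ := fun i j => pt (c i) (x i) j with hw
  set R : Finset ℂ := (Finset.univ.sigma fun i : Fin r => Finset.range (c i).natAbs).image
    (fun q => rho (w q.1 q.2)) with hR
  let ex : Fin R.card ≃ R := R.equivFin.symm
  set x' : Fin R.card → ℂ := fun a => (ex a : ℂ) with hx'
  have hfix : ∀ b, rho (x' b) = x' b := by
    intro b
    have h1 : x' b ∈ R := (ex b).2
    rw [hR, Finset.mem_image] at h1
    obtain ⟨q, -, hq⟩ := h1
    rw [← hq, rho_rho]
  have hinc : ∀ b b' (n : ℤ), x' b = x' b' + n → b = b' := by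
    intro b b' n hn
    have h1 : rho (x' b) = rho (x' b') := rho_eq.2 ⟨n, hn⟩
    rw [hfix, hfix] at h1
    exact ex.injective (Subtype.ext h1)
  have hex : ∀ i : Fin r, ∀ j ∈ Finset.range (c i).natAbs, ∃ b, x' b = rho (w i j) := by
    intro i j hj
    have h1 : rho (w i j) ∈ R := by
      rw [hR, Finset.mem_image]
      exact ⟨⟨i, j⟩, Finset.mem_sigma.2 ⟨Finset.mem_univ _, hj⟩, rfl⟩
    exact ⟨ex.symm ⟨_, h1⟩, by simp [hx']⟩
  -- the coefficients
  set Cc : Fin R.card × Fin s → ℂ := fun q => ∑ i, ∑ j ∈ Finset.range (c i).natAbs,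
    if rho (w i j) = x' q.1 then a (i, q.2) * κ (i, q.2) else 0 with hCc
  have hsum : ∀ t : ℂ, ∑ q, Cc q / (t + x' q.1) ^ ((q.2 : ℕ) + 1) =
      ∑ p : Fin r × Fin s, a p * ∑ j ∈ Finset.range (c p.1).natAbs,
        κ p / (t + rho (w p.1 j)) ^ ((p.2 : ℕ) + 1) := by
    intro t
    rw [Fintype.sum_prod_type, Finset.sum_comm]
    conv_rhs => rw [Fintype.sum_prod_type, Finset.sum_comm]
    refine Finset.sum_congr rfl fun k _ => ?_
    simp only [hCc, Finset.sum_div, Finset.mul_sum]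
    rw [Finset.sum_comm]
    refine Finset.sum_congr rfl fun i _ => ?_
    rw [Finset.sum_comm]
    refine Finset.sum_congr rfl fun j hj => ?_
    obtain ⟨b, hb⟩ := hex i j hj
    rw [Finset.sum_eq_single b]
    · rw [if_pos hb.symm, hb]
      ring
    · intro b' _ hb'
      rw [if_neg, zero_div]
      intro h1
      apply hb'
      exact hinc b' b 0 (by rw [← h1, hb]; simp)
    · intro h1
      exact absurd (Finset.mem_univ _) h1
  -- the corrections
  have htel : ∀ (p : Fin r × Fin s) (j : ℕ), ∃ g : ℂ → ℂ, IsRat g ∧ ∀ t,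
      κ p / (t + w p.1 j) ^ ((p.2 : ℕ) + 1) =
        κ p / (t + rho (w p.1 j)) ^ ((p.2 : ℕ) + 1) + (g t - g (t + 1)) := by
    intro p j
    obtain ⟨n, hn⟩ := rho_rel (w p.1 j)
    obtain ⟨g, hg, hg'⟩ := tele (IsRat.pow (κ p) (rho (w p.1 j)) ((p.2 : ℕ) + 1)) n
    refine ⟨g, hg, fun t => ?_⟩
    rw [← hg' t]
    congr 2
    nth_rewrite 1 [hn]
    ring
  choose g hg hg' using htel
  set H' : ℂ → ℂ := fun t => h t - ∑ p, a p * ∑ j ∈ Finset.range (c p.1).natAbs, g p j t with hH'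
  have hH'r : IsRat H' := by
    refine hh.sub ?_
    refine IsRat.sum Finset.univ (fun (p : Fin r × Fin s) (t : ℂ) => a p * ∑ j ∈ Finset.range (c p.1).natAbs, g p j t)
      fun p _ => ?_
    exact IsRat.const_mul _ (IsRat.sum _ _ fun j _ => hg p j)
  have hfin : ∀ᶠ t : ℝ in atTop, ∑ q, Cc q / ((t : ℂ) + x' q.1) ^ ((q.2 : ℕ) + 1) =
      H' (t : ℂ) - H' ((t : ℂ) + 1) := by
    filter_upwards [H] with t ht
    rw [hsum]
    simp only [hH']
    have h1 : ∑ p, a p * (∑ j ∈ Finset.range (c p.1).natAbs,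
      κ p / ((t : ℂ) + pt (c p.1) (x p.1) j) ^ ((p.2 : ℕ) + 1)) =
      (∑ p : Fin r × Fin s, a p * ∑ j ∈ Finset.range (c p.1).natAbs,
        κ p / ((t : ℂ) + rho (w p.1 j)) ^ ((p.2 : ℕ) + 1)) +
      ((∑ p, a p * ∑ j ∈ Finset.range (c p.1).natAbs, g p j (t : ℂ)) -
        ∑ p, a p * ∑ j ∈ Finset.range (c p.1).natAbs, g p j ((t : ℂ) + 1)) := by
      rw [← Finset.sum_sub_distrib, ← Finset.sum_add_distrib]
      refine Finset.sum_congr rfl fun p _ => ?_
      rw [← mul_sub, ← mul_add, ← Finset.sum_sub_distrib, ← Finset.sum_add_distrib]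
      congr 1
      exact Finset.sum_congr rfl fun j _ => hg' p j t
    rw [h1] at ht
    linear_combination ht
  obtain ⟨N, D, hD, hND⟩ := hH'r
  have hC0 : Cc = 0 := by
    refine fracC_ind R.card s x' hinc Cc 1 one_ne_zero N D hD ?_
    have h2 : ∀ᶠ t : ℝ in atTop, D.eval (((t + 1 : ℝ)) : ℂ) ≠ 0 := tend1.eventually (poly_ne hD)
    filter_upwards [hfin, poly_ne hD, h2] with t h3 h4 h5
    rw [h3, one_mul]
    have e1 : (((t + 1 : ℝ)) : ℂ) = (t : ℂ) + 1 := by push_cast; ring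
    rw [e1] at h5
    rw [← hND _ h4, ← hND _ h5]
    field_simp
  funext ⟨i0, k⟩
  have h3 := hind (fun i => a (i, k) * κ (i, k)) (by
    intro y
    have h4 : ∑ i, a (i, k) * κ (i, k) * (if Cos (c i) (x i) y then 1 else 0) =
        ∑ i, ∑ j ∈ Finset.range (c i).natAbs, if rho (w i j) = rho y then a (i, k) * κ (i, k) else 0 := by
      refine Finset.sum_congr rfl fun i _ => ?_
      have h5 := cnt (hc i) (x i) y
      have h6 : (((if Cos (c i) (x i) y then 1 else 0 : ℕ)) : ℂ) = if Cos (c i) (x i) y then 1 else 0 := by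
        split_ifs <;> simp
      rw [← h6, ← h5, ← Finset.sum_filter, Finset.sum_const, nsmul_eq_mul, mul_comm]
      congr 3
      refine Finset.filter_congr fun j _ => ?_
      rw [eq_comm, rho_eq]
    rw [h4]
    by_cases hy : rho y ∈ R
    · have h5 := congrFun hC0 (ex.symm ⟨_, hy⟩, k)
      simp only [hCc, hx', Equiv.apply_symm_apply, Pi.zero_apply] at h5
      exact h5
    · refine Finset.sum_eq_zero fun i _ => Finset.sum_eq_zero fun j hj => if_neg fun h6 => hy ?_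
      obtain ⟨b, hb⟩ := hex i j hj
      rw [← h6, ← hb]
      exact (ex b).2)
  have h4 := congrFun h3 i0
  simp only [Pi.zero_apply] at h4
  exact (mul_eq_zero.1 h4).resolve_right (hκ _)

end Pool.Agent.Q136.LR
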