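import Pool.Agent.Q136.LR.Frac
import Pool.Agent.Y771.RP.Rel

/-!
# `Γ(c t + x)` and `ψ^(k)(c t + x)` as solutions of difference equations of order one
-/

set_option autoImplicit false

open Filter Topology Polynomial

namespace Pool.Agent.Q136.LR

open Pool.Agent.Q23.DM

/-- not a pole of the gamma function -/
def NP (z : ℂ) : Prop := ∀ n : ℕ, z ≠ -n

theorem np_iff {z : ℂ} : NP z ↔ (Complex.Gamma z)⁻¹ ≠ 0 := by
  unfold NP
  rw [Ne, inv_eq_zero, Complex.Gamma_eq_zero_iff]
  push Not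
  rfl

theorem np_ev {z : ℂ} (h : NP z) : ∀ᶠ w in 𝓝 z, NP w := by
  have h1 : ContinuousAt (fun w : ℂ => (Complex.Gamma w)⁻¹) z :=
    Complex.differentiable_one_div_Gamma.continuous.continuousAt
  filter_upwards [h1.eventually_ne (np_iff.1 h)] with w hw
  exact np_iff.2 hw

theorem np_add {z : ℂ} (h : NP z) (j : ℕ) : NP (z + j) := by
  intro n hn
  apply h (n + j)
  push_cast
  linear_combination hn

theorem np_im {z : ℂ} (h : z.im ≠ 0) : NP z := by
  rintro n rfl
  apply h
  simp

theorem gam_an {z : ℂ} (h : NP z) : AnalyticAt ℂ Complex.Gamma z := Y771.RP.Gamma_analyticAt h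

theorem dig_an {z : ℂ} (h : NP z) : AnalyticAt ℂ Complex.digamma z := by
  have h1 : AnalyticAt ℂ (fun w => deriv Complex.Gamma w / Complex.Gamma w) z :=
    (gam_an h).deriv.div (gam_an h) (Complex.Gamma_ne_zero h)
  have h2 : Complex.digamma = fun w => deriv Complex.Gamma w / Complex.Gamma w := by
    funext w
    rw [Complex.digamma_def, logDeriv_apply]
  rw [h2]
  exact h1

/-- the derivatives of the digamma function -/
noncomputable def psi (k : ℕ) (z : ℂ) : ℂ := iteratedDeriv k Complex.digamma z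

theorem psi_an (k : ℕ) {z : ℂ} (h : NP z) : AnalyticAt ℂ (psi k) z := by
  have h1 : psi k = deriv^[k] Complex.digamma := by
    funext w
    unfold psi
    rw [iteratedDeriv_eq_iterate]
  rw [h1]
  exact (dig_an h).iterated_deriv k

theorem psi_one (k : ℕ) {z : ℂ} (h : NP z) :
    psi k (z + 1) = psi k z + (-1) ^ k * k.factorial / z ^ (k + 1) := by
  have h0 : z ≠ 0 := by simpa using h 0
  have h1 : (fun w => Complex.digamma (w + 1)) =ᶠ[𝓝 z] (Complex.digamma + Inv.inv : ℂ → ℂ) := by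
    filter_upwards [np_ev h] with w hw
    exact Complex.digamma_apply_add_one w hw
  have h2 := h1.iteratedDeriv_eq k
  rw [iteratedDeriv_comp_add_const] at h2
  have h3 : ContDiffAt ℂ k (Inv.inv : ℂ → ℂ) z := contDiffAt_inv ℂ h0
  rw [iteratedDeriv_add (dig_an h).contDiffAt h3] at h2
  unfold psi
  beta_reduce at h2
  rw [h2, iteratedDeriv_eq_iterate (f := (Inv.inv : ℂ → ℂ)), iter_deriv_inv]
  congr 1
  have h4 : (-1 - (k : ℤ)) = -((k + 1 : ℕ) : ℤ) := by push_cast; ring
  rw [h4, zpow_neg, zpow_natCast, div_eq_mul_inv]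

theorem psi_add (k : ℕ) {z : ℂ} (h : NP z) (n : ℕ) :
    psi k (z + n) = psi k z + ∑ j ∈ Finset.range n, (-1) ^ k * k.factorial / (z + j) ^ (k + 1) := by
  induction n with
  | zero => simp
  | succ n ih =>
    rw [Finset.sum_range_succ, ← add_assoc, ← ih, ← psi_one k (np_add h n)]
    push_cast
    rw [add_assoc]

theorem gam_add {z : ℂ} (h : NP z) (n : ℕ) :
    Complex.Gamma (z + n) = (∏ j ∈ Finset.range n, (z + j)) * Complex.Gamma z := by
  induction n with
  | zero => simp
  | succ n ih =>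
    have h1 : z + n ≠ 0 := by simpa using np_add h n 0
    rw [Finset.prod_range_succ]
    push_cast
    rw [← add_assoc, Complex.Gamma_add_one _ h1, ih]
    ring

/-- products over the offsets -/
theorem gam_step {c : ℤ} (hc : c ≠ 0) (x t : ℂ) (h : (c * t + x).im ≠ 0) :
    (if 0 < c then (1 : ℂ[X]) else QQ c x).eval t * Complex.Gamma (c * (t + 1) + x) =
      (if 0 < c then QQ c x else 1 : ℂ[X]).eval t * Complex.Gamma (c * t + x) := by
  split_ifs with h0
  · rw [QQ_eval hc, eval_one, one_mul]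
    have h1 : (c : ℂ) * (t + 1) + x = c * t + x + (c.natAbs : ℕ) := by
      have : ((c.natAbs : ℕ) : ℂ) = (c : ℂ) := by
        have h2 : ((c.natAbs : ℕ) : ℤ) = c := Int.natAbs_of_nonneg h0.le
        rw [← Int.cast_natCast (R := ℂ), h2]
      rw [this]
      ring
    rw [h1, gam_add (np_im h)]
    congr 1
    refine Finset.prod_congr rfl fun j _ => ?_
    unfold dl
    rw [if_pos h0]
    push_cast
    rfl
  · rw [QQ_eval hc, eval_one, one_mul]
    have h5 : ((c.natAbs : ℕ) : ℂ) = -(c : ℂ) := by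
      have h2 : ((c.natAbs : ℕ) : ℤ) = -c := by omega
      rw [← Int.cast_natCast (R := ℂ), h2, Int.cast_neg]
    have h1 : (c : ℂ) * t + x = (c * (t + 1) + x) + (c.natAbs : ℕ) := by
      rw [h5]
      ring
    have h6 : ((c : ℂ) * (t + 1) + x).im ≠ 0 := by
      have : ((c : ℂ) * (t + 1) + x).im = (c * t + x).im := by
        have : (c : ℂ) * (t + 1) + x = (c * t + x) + (c : ℂ) := by ring
        rw [this, Complex.add_im, Complex.intCast_im, add_zero]
      rw [this]
      exact h
    have h7 : Complex.Gamma (c * t + x) =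
        (∏ j ∈ Finset.range c.natAbs, ((c * (t + 1) + x) + j)) * Complex.Gamma (c * (t + 1) + x) := by
      rw [← gam_add (np_im h6), ← h1]
    rw [h7]
    congr 1
    rw [← Finset.prod_range_reflect]
    refine Finset.prod_congr rfl fun j hj => ?_
    rw [Finset.mem_range] at hj
    unfold dl
    rw [if_neg h0]
    have h8 : ((c.natAbs - 1 - j : ℕ) : ℂ) = -(c : ℂ) - 1 - j := by
      rw [Nat.cast_sub (by omega), Nat.cast_sub (by omega), h5]
      simp
    push_cast
    rw [h8]
    ring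

/-- the constants of the difference equations of the logarithmic derivatives -/
noncomputable def kap (c : ℤ) (k : ℕ) : ℂ :=
  (if 0 < c then 1 else -1) * ((-1) ^ k * k.factorial) / (c : ℂ) ^ (k + 1)

theorem kap_ne {c : ℤ} (hc : c ≠ 0) (k : ℕ) : kap c k ≠ 0 := by
  have h1 : (c : ℂ) ≠ 0 := Int.cast_ne_zero.2 hc
  have h2 : (k.factorial : ℂ) ≠ 0 := Nat.cast_ne_zero.2 k.factorial_ne_zero
  unfold kap
  refine div_ne_zero (mul_ne_zero ?_ (mul_ne_zero (pow_ne_zero _ (by norm_num)) h2)) (pow_ne_zero _ h1)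
  split_ifs <;> norm_num

theorem psi_step {c : ℤ} (hc : c ≠ 0) (k : ℕ) (x t : ℂ) (h : (c * t + x).im ≠ 0) :
    psi k (c * (t + 1) + x) = psi k (c * t + x) +
      ∑ j ∈ Finset.range c.natAbs, kap c k / (t + pt c x j) ^ (k + 1) := by
  have hc0 : (c : ℂ) ≠ 0 := Int.cast_ne_zero.2 hc
  have hkey : ∀ j, kap c k / (t + pt c x j) ^ (k + 1) =
      (if 0 < c then 1 else -1) * ((-1) ^ k * k.factorial / (c * t + x + dl c j) ^ (k + 1)) := by
    intro j
    rw [pt_mul hc]
    unfold kap
    rw [mul_pow, div_div, mul_div_assoc]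
  simp only [hkey]
  rw [← Finset.mul_sum]
  rcases lt_or_gt_of_ne hc with h0 | h0
  · have h0' : ¬ 0 < c := by omega
    rw [if_neg h0']
    have h5 : ((c.natAbs : ℕ) : ℂ) = -(c : ℂ) := by
      have h2 : ((c.natAbs : ℕ) : ℤ) = -c := by omega
      rw [← Int.cast_natCast (R := ℂ), h2, Int.cast_neg]
    have h1 : (c : ℂ) * t + x = (c * (t + 1) + x) + (c.natAbs : ℕ) := by
      rw [h5]
      ring
    have h6 : ((c : ℂ) * (t + 1) + x).im ≠ 0 := by
      have : ((c : ℂ) * (t + 1) + x).im = (c * t + x).im := by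
        have : (c : ℂ) * (t + 1) + x = (c * t + x) + (c : ℂ) := by ring
        rw [this, Complex.add_im, Complex.intCast_im, add_zero]
      rw [this]
      exact h
    have h7 : psi k (c * t + x) = psi k (c * (t + 1) + x) + ∑ j ∈ Finset.range c.natAbs,
        (-1) ^ k * k.factorial / ((c * (t + 1) + x) + j) ^ (k + 1) := by
      rw [← psi_add k (np_im h6), ← h1]
    rw [h7]
    have h9 : ∑ j ∈ Finset.range c.natAbs, (-1) ^ k * (k.factorial : ℂ) / ((c * (t + 1) + x) + j) ^ (k + 1) =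
        ∑ j ∈ Finset.range c.natAbs, (-1) ^ k * (k.factorial : ℂ) / (c * t + x + dl c j) ^ (k + 1) := by
      rw [← Finset.sum_range_reflect]
      refine Finset.sum_congr rfl fun j hj => ?_
      rw [Finset.mem_range] at hj
      unfold dl
      rw [if_neg h0']
      have h8 : ((c.natAbs - 1 - j : ℕ) : ℂ) = -(c : ℂ) - 1 - j := by
        rw [Nat.cast_sub (by omega), Nat.cast_sub (by omega), h5]
        simp
      push_cast
      rw [h8]
      congr 2
      ring
    rw [h9]
    ring
  · rw [if_pos h0, one_mul]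
    have h1 : (c : ℂ) * (t + 1) + x = c * t + x + (c.natAbs : ℕ) := by
      have : ((c.natAbs : ℕ) : ℂ) = (c : ℂ) := by
        have h2 : ((c.natAbs : ℕ) : ℤ) = c := Int.natAbs_of_nonneg h0.le
        rw [← Int.cast_natCast (R := ℂ), h2]
      rw [this]
      ring
    rw [h1, psi_add k (np_im h)]
    congr 1
    refine Finset.sum_congr rfl fun j _ => ?_
    unfold dl
    rw [if_pos h0]
    push_cast
    rfl

/-- the functions -/
noncomputable def fn {r u : ℕ} (s : ℕ) (c : Fin r → ℂ) (x : Fin r → ℂ) (l : Fin u → ℂ) :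
    (Fin r × Fin s) ⊕ (Fin r ⊕ Fin u) → ℂ → ℂ
  | Sum.inl p, z => psi (p.2 : ℕ) (c p.1 * z + x p.1)
  | Sum.inr (Sum.inl i), z => Complex.Gamma (c i * z + x i)
  | Sum.inr (Sum.inr j), z => Complex.exp (l j * z)

open Classical in
/-- independence along the real line -/
theorem ray {r u : ℕ} (s : ℕ) (c : Fin r → ℤ) (hc : ∀ i, c i ≠ 0) (x : Fin r → ℂ) (hx : ∀ i, (x i).im ≠ 0)
    (l : Fin u → ℂ)
    (hl : ∀ e e' : Fin u → ℕ, Complex.exp (∑ j, e j * l j) = Complex.exp (∑ j, e' j * l j) → e = e')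
    (hind : ∀ m : Fin r → ℂ, (∀ y : ℂ, ∑ i, m i * (if Cos (c i) (x i) y then 1 else 0) = 0) → m = 0)
    (P : MvPolynomial (Option ((Fin r × Fin s) ⊕ (Fin r ⊕ Fin u))) ℂ)
    (hP : ∀ᶠ t : ℝ in atTop, MvPolynomial.eval (fun o : Option ((Fin r × Fin s) ⊕ (Fin r ⊕ Fin u)) =>
      o.elim (t : ℂ) fun y => fn s (fun i => (c i : ℂ)) x l y (t : ℂ)) P = 0) : P = 0 := by
  have him : ∀ i (t : ℝ), ((c i : ℂ) * (t : ℂ) + x i).im ≠ 0 := by
    intro i t
    have : ((c i : ℂ) * (t : ℂ) + x i).im = (x i).im := by simp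
    rw [this]
    exact hx i
  refine concreteR (κ := Fin r × Fin s) (μ := Fin r ⊕ Fin u)
    (fun p t => psi (p.2 : ℕ) ((c p.1 : ℂ) * (t : ℂ) + x p.1))
    (fun p t => ∑ j ∈ Finset.range (c p.1).natAbs, kap (c p.1) (p.2 : ℕ) / (t + pt (c p.1) (x p.1) j) ^ ((p.2 : ℕ) + 1))
    (fun p => IsRat.sum _ _ fun j _ => IsRat.pow _ _ _) ?_
    (Sum.elim (fun i t => Complex.Gamma ((c i : ℂ) * (t : ℂ) + x i)) (fun j t => Complex.exp (l j * (t : ℂ))))
    (bb c x (fun j => Complex.exp (l j))) (bd c x) (bb_ne c hc x _ fun j => Complex.exp_ne_zero _) (bd_ne c hc x)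
    ?_ ?_ ?_ ?_ P ?_
  · intro p
    refine Eventually.of_forall fun t => ?_
    have h2 : (((t + 1 : ℝ)) : ℂ) = (t : ℂ) + 1 := by push_cast; ring
    simp only [h2]
    exact psi_step (hc p.1) _ _ _ (him p.1 t)
  · rintro (i | j)
    · refine Eventually.of_forall fun t => ?_
      have h2 : (((t + 1 : ℝ)) : ℂ) = (t : ℂ) + 1 := by push_cast; ring
      simp only [Sum.elim_inl, h2]
      exact gam_step (hc i) _ _ (him i t)
    · refine Eventually.of_forall fun t => ?_
      show (1 : ℂ[X]).eval (t : ℂ) * Complex.exp (l j * (((t + 1 : ℝ)) : ℂ)) =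
        (C (Complex.exp (l j))).eval (t : ℂ) * Complex.exp (l j * (t : ℂ))
      rw [eval_C, ← Complex.exp_add, eval_one, one_mul]
      congr 1
      push_cast
      ring
  · rintro (i | j)
    · exact Eventually.of_forall fun t => Complex.Gamma_ne_zero (np_im (him i t))
    · exact Eventually.of_forall fun t => Complex.exp_ne_zero _
  · intro a h hh H
    exact hA_of c hc x hind (fun p => kap (c p.1) (p.2 : ℕ)) (fun p => kap_ne (hc _) _) a h hh H
  · intro e e' A B hA hB h
    refine hM_of c hc x (fun j => Complex.exp (l j)) (fun j => Complex.exp_ne_zero _) (fun e e' h => hl e e' ?_)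
      hind e e' A B hA hB h
    simpa [Complex.exp_sum, Complex.exp_nat_mul] using h
  · filter_upwards [hP] with t ht
    rw [← ht]
    congr 2
    funext o
    rcases o with _ | (p | (i | j)) <;> rfl

end Pool.Agent.Q136.LR
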