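import Pool.Agent.Q136.LR.Gam

/-!
# Local independence
-/

set_option autoImplicit false

open Filter Topology

namespace Pool.Agent.Q136.LR

/-- `c y ∈ x + ℤ` -/
def CosQ (c x y : ℂ) : Prop := ∃ n : ℤ, c * y = x + n

open Classical in
/-- from rational to complex coefficients -/
theorem ind_CC {r : ℕ} (c x : Fin r → ℂ)
    (h : ∀ m : Fin r → ℚ, (∀ y : ℂ, ∑ i, m i * (if CosQ (c i) (x i) y then 1 else 0) = 0) → m = 0)
    (m : Fin r → ℂ) (hm : ∀ y : ℂ, ∑ i, m i * (if CosQ (c i) (x i) y then 1 else 0) = 0) : m = 0 := by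
  funext i
  refine (Module.forall_dual_apply_eq_zero_iff ℚ (m i)).1 fun φ => ?_
  have h1 := h (fun i => φ (m i)) (by
    intro y
    have h2 := congrArg φ (hm y)
    rw [map_sum, map_zero] at h2
    refine Eq.trans (Finset.sum_congr rfl fun i _ => ?_) h2
    split_ifs <;> simp)
  exact congrFun h1 i

/-- the domain -/
def Dom {r : ℕ} (c x : Fin r → ℂ) : Set ℂ := {z | ∀ i, NP (c i * z + x i)}

theorem dom_conn {r : ℕ} (c x : Fin r → ℂ) (hc : ∀ i, c i ≠ 0) : IsPreconnected (Dom c x) := by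
  have h1 : (Dom c x) = (⋃ i, ⋃ n : ℕ, {z | c i * z + x i = -n})ᶜ := by
    ext z
    simp only [Dom, NP, Set.mem_compl_iff, Set.mem_iUnion, Set.mem_ofPred_eq]
    push Not
    rfl
  rw [h1]
  have h2 : (⋃ i, ⋃ n : ℕ, {z | c i * z + x i = -n}).Countable := by
    refine Set.countable_iUnion fun i => Set.countable_iUnion fun n => ?_
    refine (Set.countable_singleton ((-n - x i) / c i)).mono ?_
    intro z hz
    have hz' : c i * z + x i = -n := hz
    have := hc i
    rw [Set.mem_singleton_iff]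
    field_simp
    linear_combination hz'
  refine (h2.isPathConnected_compl_of_one_lt_rank ?_).isConnected.isPreconnected
  rw [Complex.rank_real_complex]
  norm_num

theorem fn_an {r s u : ℕ} (c x : Fin r → ℂ) (l : Fin u → ℂ) (y : (Fin r × Fin s) ⊕ (Fin r ⊕ Fin u)) {z : ℂ}
    (hz : z ∈ Dom c x) : AnalyticAt ℂ (fn s c x l y) z := by
  have h1 : ∀ i, AnalyticAt ℂ (fun z : ℂ => c i * z + x i) z := fun i =>
    (analyticAt_const.mul analyticAt_id).add analyticAt_const
  rcases y with p | i | j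
  · exact AnalyticAt.comp (g := psi (p.2 : ℕ)) (f := fun z : ℂ => c p.1 * z + x p.1) (psi_an _ (hz _)) (h1 _)
  · exact AnalyticAt.comp (g := Complex.Gamma) (f := fun z : ℂ => c i * z + x i) (gam_an (hz _)) (h1 _)
  · exact (analyticAt_const.mul analyticAt_id).cexp

/-- an affine substitution -/
noncomputable def th {r s u : ℕ} (N w : ℂ) (g : Fin u → ℂ) :
    Option ((Fin r × Fin s) ⊕ (Fin r ⊕ Fin u)) → MvPolynomial (Option ((Fin r × Fin s) ⊕ (Fin r ⊕ Fin u))) ℂ
  | none => MvPolynomial.C N * MvPolynomial.X none + MvPolynomial.C w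
  | some (Sum.inr (Sum.inr j)) => MvPolynomial.C (g j) * MvPolynomial.X (some (Sum.inr (Sum.inr j)))
  | some (Sum.inr (Sum.inl i)) => MvPolynomial.X (some (Sum.inr (Sum.inl i)))
  | some (Sum.inl p) => MvPolynomial.X (some (Sum.inl p))

theorem th_inj {r s u : ℕ} (N w : ℂ) (g : Fin u → ℂ) (hN : N ≠ 0) (hg : ∀ j, g j ≠ 0)
    (P : MvPolynomial (Option ((Fin r × Fin s) ⊕ (Fin r ⊕ Fin u))) ℂ)
    (hP : MvPolynomial.aeval (th N w g) P = 0) : P = 0 := by
  have h1 : (MvPolynomial.aeval (th (r := r) (s := s) N⁻¹ (-w * N⁻¹) (fun j => (g j)⁻¹))).comp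
      (MvPolynomial.aeval (th N w g)) = AlgHom.id ℂ _ := by
    refine MvPolynomial.algHom_ext fun o => ?_
    rw [AlgHom.comp_apply, MvPolynomial.aeval_X, AlgHom.id_apply]
    rcases o with _ | (p | (i | j))
    · simp only [th, map_add, map_mul, MvPolynomial.algHom_C, MvPolynomial.aeval_X, MvPolynomial.algebraMap_eq]
      have h1 : N * (-w * N⁻¹) + w = 0 := by field_simp; ring
      have h2 : (MvPolynomial.C N * (MvPolynomial.C N⁻¹ * MvPolynomial.X none +
          MvPolynomial.C (-w) * MvPolynomial.C N⁻¹) + MvPolynomial.C w : MvPolynomial (Option ((Fin r × Fin s) ⊕ (Fin r ⊕ Fin u))) ℂ) =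
          MvPolynomial.C (N * N⁻¹) * MvPolynomial.X none + MvPolynomial.C (N * (-w * N⁻¹) + w) := by
        simp only [MvPolynomial.C_add, MvPolynomial.C_mul]
        ring
      rw [h2, mul_inv_cancel₀ hN, h1, MvPolynomial.C_1, one_mul, MvPolynomial.C_0, add_zero]
    · simp only [th, MvPolynomial.aeval_X]
    · simp only [th, MvPolynomial.aeval_X]
    · simp only [th, map_mul, MvPolynomial.algHom_C, MvPolynomial.aeval_X, MvPolynomial.algebraMap_eq]
      rw [← mul_assoc, ← map_mul, mul_inv_cancel₀ (hg j), map_one, one_mul]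
  have h2 := congrArg (fun f => f P) h1
  simp only [AlgHom.comp_apply, AlgHom.id_apply, hP, map_zero] at h2
  exact h2.symm

theorem th_eval {r s u : ℕ} (N w : ℂ) (g : Fin u → ℂ) (v : Option ((Fin r × Fin s) ⊕ (Fin r ⊕ Fin u)) → ℂ)
    (P : MvPolynomial (Option ((Fin r × Fin s) ⊕ (Fin r ⊕ Fin u))) ℂ) :
    MvPolynomial.eval v (MvPolynomial.aeval (th N w g) P) =
      MvPolynomial.eval (fun o => MvPolynomial.eval v (th N w g o)) P := by
  have h1 : (MvPolynomial.eval v).comp (MvPolynomial.aeval (th N w g) :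
      MvPolynomial (Option ((Fin r × Fin s) ⊕ (Fin r ⊕ Fin u))) ℂ →ₐ[ℂ] _).toRingHom =
      MvPolynomial.eval (fun o => MvPolynomial.eval v (th N w g o)) := by
    refine MvPolynomial.ringHom_ext ?_ ?_
    · intro a
      simp
    · intro o
      simp
  exact RingHom.congr_fun h1 P

open Classical in
theorem loc {r u : ℕ} (s : ℕ) (c : Fin r → ℚ) (hc : ∀ i, c i ≠ 0) (x : Fin r → ℂ) (l : Fin u → ℂ)
    (hl : ∀ (n : Fin u → ℤ) (k : ℚ), ∑ j, n j * l j = 2 * Real.pi * Complex.I * k → n = 0)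
    (hind : ∀ m : Fin r → ℚ, (∀ y : ℂ, ∑ i, m i * (if CosQ (c i) (x i) y then 1 else 0) = 0) → m = 0) :
    ∀ t0 ∈ Dom (fun i => (c i : ℂ)) x, Y124.LocInd (fn s (fun i => (c i : ℂ)) x l) t0 := by
  have hcC : ∀ i, ((c i : ℂ)) ≠ 0 := fun i => by exact_mod_cast hc i
  refine Y771.RP.locInd_of _ (Dom (fun i => (c i : ℂ)) x) (dom_conn _ _ hcC) (fun y t ht => fn_an _ _ _ y ht)
    fun P hP => ?_
  -- a common denominator
  set N : ℕ := ∏ i, (c i).den with hN
  have hN0 : N ≠ 0 := Finset.prod_ne_zero_iff.2 fun i _ => (c i).den_ne_zero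
  have hNC : (N : ℂ) ≠ 0 := Nat.cast_ne_zero.2 hN0
  have hp : ∀ i, ∃ p : ℤ, (p : ℂ) = c i * N := by
    intro i
    obtain ⟨k, hk⟩ := Finset.dvd_prod_of_mem (fun i => (c i).den) (Finset.mem_univ i)
    refine ⟨(c i).num * k, ?_⟩
    have h1 : (c i : ℂ) * ((c i).den : ℂ) = ((c i).num : ℂ) := by
      have := Rat.mul_den_eq_num (c i)
      exact_mod_cast congrArg (Rat.cast : ℚ → ℂ) this
    have h2 : (N : ℂ) = ((c i).den : ℂ) * k := by
      rw [hN]
      exact_mod_cast congrArg (Nat.cast : ℕ → ℂ) hk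
    rw [h2, ← mul_assoc, h1]
    push_cast
    rfl
  choose p hp using hp
  have hp0 : ∀ i, p i ≠ 0 := by
    intro i h0
    have h1 := hp i
    rw [h0, Int.cast_zero] at h1
    exact mul_ne_zero (hcC i) hNC h1.symm
  -- the offset
  obtain ⟨τ, hτ⟩ : ∃ τ : ℝ, ∀ i, (c i : ℝ) * τ + (x i).im ≠ 0 := by
    have hf : (Finset.univ.image fun i => -(x i).im / (c i : ℝ)).finite_toSet.toFinset.Nonempty ∨ True := Or.inr trivial
    obtain ⟨τ, hτ⟩ := Infinite.exists_notMem_finset (Finset.univ.image fun i => -(x i).im / (c i : ℝ))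
    refine ⟨τ, fun i h0 => hτ ?_⟩
    rw [Finset.mem_image]
    have : (c i : ℝ) ≠ 0 := by exact_mod_cast hc i
    refine ⟨i, Finset.mem_univ _, ?_⟩
    field_simp
    linear_combination -h0
  set w : ℂ := Complex.I * τ with hw
  have him : ∀ i, ((c i : ℂ) * w + x i).im ≠ 0 := by
    intro i
    have : ((c i : ℂ) * w + x i).im = (c i : ℝ) * τ + (x i).im := by
      rw [hw, Complex.add_im]
      congr 1
      have : (c i : ℂ) = ((c i : ℝ) : ℂ) := by push_cast; rfl
      rw [this]
      simp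
    rw [this]
    exact hτ i
  set g : Fin u → ℂ := fun j => Complex.exp (l j * w) with hg
  refine th_inj (r := r) (s := s) (N : ℂ) w g hNC (fun j => Complex.exp_ne_zero _) P ?_
  refine ray s p hp0 (fun i => c i * w + x i) him (fun j => l j * N) ?_ ?_ _ ?_
  · intro e e' h
    obtain ⟨k, hk⟩ := Complex.exp_eq_exp_iff_exists_int.1 h
    have h1 := hl (fun j => (e j : ℤ) - (e' j : ℤ)) ((k : ℚ) / N) (by
      push_cast
      simp only [sub_mul, Finset.sum_sub_distrib]
      have h2 : ∀ e : Fin u → ℕ, ∑ j, (e j : ℂ) * (l j * N) = (∑ j, (e j : ℂ) * l j) * N := by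
        intro e
        rw [Finset.sum_mul]
        exact Finset.sum_congr rfl fun j _ => by ring
      rw [h2, h2] at hk
      field_simp
      linear_combination hk)
    funext j
    have h2 := congrFun h1 j
    simp only [Pi.zero_apply] at h2
    omega
  · intro m hm
    refine ind_CC (fun i => (c i : ℂ)) x hind m fun y => ?_
    have h1 := hm ((y + w) / N)
    refine Eq.trans (Finset.sum_congr rfl fun i _ => ?_) h1
    have h2 : CosQ (c i) (x i) y ↔ Cos (p i) (c i * w + x i) ((y + w) / N) := by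
      have h3 : (p i : ℂ) * ((y + w) / N) = c i * y + c i * w := by
        rw [hp i]
        field_simp
      unfold CosQ Cos
      rw [h3]
      constructor
      · rintro ⟨n, hn⟩
        exact ⟨n, by rw [hn]; ring⟩
      · rintro ⟨n, hn⟩
        exact ⟨n, by linear_combination hn⟩
    simp only [h2]
  · refine Eventually.of_forall fun t => ?_
    rw [th_eval]
    have h3 : (N : ℂ) * t + w ∈ Dom (fun i => (c i : ℂ)) x := by
      intro i
      apply np_im
      have : (c i : ℂ) * (N * t + w) + x i = (p i : ℂ) * (t : ℂ) + (c i * w + x i) := by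
        rw [hp i]
        ring
      show ((c i : ℂ) * (N * t + w) + x i).im ≠ 0
      rw [this]
      have h4 : ((p i : ℂ) * (t : ℂ) + (c i * w + x i)).im = ((c i : ℂ) * w + x i).im := by
        rw [Complex.add_im]
        have : ((p i : ℂ) * (t : ℂ)).im = 0 := by simp
        rw [this, zero_add]
      rw [h4]
      exact him i
    rw [← hP _ h3]
    congr 2
    funext o
    have h5 : ∀ i, (p i : ℂ) * (t : ℂ) + (c i * w + x i) = (c i : ℂ) * (N * t + w) + x i := by
      intro i
      rw [hp i]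
      ring
    rcases o with _ | (q | (i | j))
    · simp [th]
    · simp [th, fn, h5]
    · simp [th, fn, h5]
    · simp only [th, map_mul, MvPolynomial.eval_C, MvPolynomial.eval_X, Option.elim, fn, hg]
      rw [← Complex.exp_add]
      congr 1
      ring

end Pool.Agent.Q136.LR
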